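import Pool.Agent.W633.LT.Stm2

/-!
# Base change of modules: formal properties of `IsBC`
-/

namespace W633.LT

namespace IsBC

section basic

variable {A B C : Type} [CommRing A] [CommRing B] [CommRing C]
  {M N P Q : Type} [AddCommGroup M] [Module A M] [AddCommGroup N] [Module B N]
  [AddCommGroup P] [Module B P] [AddCommGroup Q] [Module C Q]
  {ρ : A →+* B} {ρ' : B →+* C} {φ : M →+ N}

lemma smul (h : IsBC ρ φ) (a : A) (e : M) : φ (a • e) = ρ a • φ e := h.1 a e

/-- The linear map given by the universal property. -/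
noncomputable def lift (h : IsBC ρ φ) (g : M →+ P) (hg : ∀ a e, g (a • e) = ρ a • g e) :
    N →ₗ[B] P := (h.2 P g hg).choose

lemma lift_apply (h : IsBC ρ φ) (g : M →+ P) (hg : ∀ a e, g (a • e) = ρ a • g e) (e : M) :
    h.lift g hg (φ e) = g e := (h.2 P g hg).choose_spec.1 e

lemma ext (h : IsBC ρ φ) {G G' : N →ₗ[B] P} (hh : ∀ e, G (φ e) = G' (φ e)) : G = G' := by
  refine (h.2 P (G.toAddMonoidHom.comp φ) (fun a e => ?_)).unique (y₁ := G) (y₂ := G')
    (fun e => rfl) (fun e => (hh e).symm)
  simp [h.smul]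

/-- Extensionality for semilinear maps out of a base change. -/
lemma ext_semi (h : IsBC ρ φ) {G G' : N →+ Q} (hG : ∀ b n, G (b • n) = ρ' b • G n)
    (hG' : ∀ b n, G' (b • n) = ρ' b • G' n) (hh : ∀ e, G (φ e) = G' (φ e)) (n : N) :
    G n = G' n := by
  let _ : Module B Q := Module.compHom Q ρ'
  let F : N →ₗ[B] Q := { toFun := G, map_add' := map_add G, map_smul' := hG }
  let F' : N →ₗ[B] Q := { toFun := G', map_add' := map_add G', map_smul' := hG' }
  have : F = F' := h.ext hh
  exact congrArg (fun f : N →ₗ[B] Q => f n) this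

lemma refl (A M : Type) [CommRing A] [AddCommGroup M] [Module A M] :
    IsBC (RingHom.id A) (AddMonoidHom.id M) := by
  refine ⟨fun a e => rfl, fun P _ _ g hg => ⟨⟨⟨g, map_add g⟩, hg⟩, fun e => rfl, ?_⟩⟩
  intro G hG
  ext e
  exact hG e

lemma comp {R : Type} [AddCommGroup R] [Module C R] {φ' : N →+ R}
    (h : IsBC ρ φ) (h' : IsBC ρ' φ') : IsBC (ρ'.comp ρ) (φ'.comp φ) := by
  refine ⟨fun a e => by simp [h.smul, h'.smul], fun Q _ _ g hg => ?_⟩
  let _ : Module B Q := Module.compHom Q ρ'
  have e1 : ∀ a e, g (a • e) = ρ a • g e := hg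
  let G1 : N →ₗ[B] Q := h.lift g e1
  let G : R →ₗ[C] Q := h'.lift G1.toAddMonoidHom (fun b n => G1.map_smul b n)
  have hGa : ∀ n, G (φ' n) = G1 n := fun n => h'.lift_apply _ _ n
  refine ⟨G, fun e => ?_, ?_⟩
  · change G (φ' (φ e)) = g e
    rw [hGa]
    exact h.lift_apply g e1 e
  · intro G' hG'
    refine h'.ext (fun n => ?_)
    have hc : ∀ e, G' (φ' (φ e)) = G (φ' (φ e)) := by
      intro e
      rw [hGa]
      exact (hG' e).trans (h.lift_apply g e1 e).symm
    refine h.ext_semi (ρ' := ρ') (G := G'.toAddMonoidHom.comp φ') (G' := G.toAddMonoidHom.comp φ')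
      (fun b n => ?_) (fun b n => ?_) hc n
    · simp [h'.smul]
    · simp [h'.smul]

lemma cancel {R : Type} [AddCommGroup R] [Module C R] {φ' : N →+ R}
    (h : IsBC ρ φ) (h'' : IsBC (ρ'.comp ρ) (φ'.comp φ))
    (hs : ∀ b n, φ' (b • n) = ρ' b • φ' n) : IsBC ρ' φ' := by
  refine ⟨hs, fun Q _ _ g hg => ?_⟩
  have e1 : ∀ a e, (g.comp φ) (a • e) = (ρ'.comp ρ) a • (g.comp φ) e := by
    intro a e; simp [h.smul, hg]
  refine ⟨h''.lift (g.comp φ) e1, fun n => ?_, fun G' hG' => ?_⟩
  · refine h.ext_semi (ρ' := ρ') (G := (h''.lift (g.comp φ) e1).toAddMonoidHom.comp φ') (G' := g)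
      (fun b n => ?_) hg (fun e => ?_) n
    · simp [hs]
    · exact h''.lift_apply (g.comp φ) e1 e
  · refine h''.ext (fun e => ?_)
    rw [h''.lift_apply]
    exact hG' (φ e)

/-- Uniqueness of the base change. -/
noncomputable def equiv {φ' : M →+ P} (h : IsBC ρ φ) (h' : IsBC ρ φ') : N ≃ₗ[B] P :=
  LinearEquiv.ofLinearMap (h.lift φ' h'.1) (h'.lift φ h.1)
    (h'.ext (fun e => by simp [lift_apply])) (h.ext (fun e => by simp [lift_apply]))

lemma equiv_apply {φ' : M →+ P} (h : IsBC ρ φ) (h' : IsBC ρ φ') (e : M) :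
    h.equiv h' (φ e) = φ' e := h.lift_apply φ' h'.1 e

lemma equiv_symm_apply {φ' : M →+ P} (h : IsBC ρ φ) (h' : IsBC ρ φ') (e : M) :
    (h.equiv h').symm (φ' e) = φ e := h'.lift_apply φ h.1 e

/-- A module isomorphic to a base change is a base change. -/
lemma trans_equiv (h : IsBC ρ φ) (E : N ≃ₗ[B] P) : IsBC ρ (E.toAddEquiv.toAddMonoidHom.comp φ) := by
  refine ⟨fun a e => by simp [h.smul], fun Q _ _ g hg => ⟨(h.lift g hg).comp E.symm.toLinearMap,
    fun e => ?_, fun G hG => ?_⟩⟩
  · simp [lift_apply]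
  · have : G.comp E.toLinearMap = h.lift g hg := h.ext (fun e => by
      rw [lift_apply]; exact hG e)
    rw [← this]
    ext x
    simp

lemma span (h : IsBC ρ φ) : Submodule.span B (Set.range φ) = ⊤ := by
  have h1 : (Submodule.span B (Set.range φ)).mkQ = 0 := by
    refine h.ext (fun e => ?_)
    rw [LinearMap.zero_apply, Submodule.mkQ_apply, Submodule.Quotient.mk_eq_zero]
    exact Submodule.subset_span ⟨e, rfl⟩
  rw [← Submodule.ker_mkQ (Submodule.span B (Set.range φ)), h1, LinearMap.ker_zero]

/-- Existence of base changes. -/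
lemma exists_tensor (ρ : A →+* B) (M : Type) [AddCommGroup M] [Module A M] :
    ∃ (N : Type) (_ : AddCommGroup N) (_ : Module B N) (φ : M →+ N), IsBC ρ φ := by
  let _ : Algebra A B := ρ.toAlgebra
  refine ⟨TensorProduct A B M, inferInstance, inferInstance,
    (TensorProduct.mk A B M 1).toAddMonoidHom, ?_⟩
  have hs : ∀ a e, (TensorProduct.mk A B M 1) (a • e) = ρ a • (TensorProduct.mk A B M 1) e := by
    intro a e
    simp only [TensorProduct.mk_apply, TensorProduct.tmul_smul, TensorProduct.smul_tmul']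
    congr 1
  refine ⟨hs, fun Q _ _ g hg => ?_⟩
  let _ : Module A Q := Module.compHom Q ρ
  have : IsScalarTower A B Q := ⟨fun a b q => by
    change (ρ a * b) • q = ρ a • (b • q)
    rw [mul_smul]⟩
  let g' : M →ₗ[A] Q := { toFun := g, map_add' := map_add g, map_smul' := hg }
  have hb := TensorProduct.isBaseChange A M B
  refine ⟨hb.lift g', fun e => hb.lift_eq g' e, fun G hG => ?_⟩
  refine hb.algHom_ext _ _ (fun e => ?_)
  rw [hb.lift_eq]
  exact hG e

lemma finite [Module.Finite A M] (h : IsBC ρ φ) : Module.Finite B N := by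
  obtain ⟨s, hs⟩ := Module.Finite.fg_top (R := A) (M := M)
  classical
  refine ⟨⟨s.image φ, ?_⟩⟩
  rw [eq_top_iff, ← h.span, Submodule.span_le]
  rintro _ ⟨e, rfl⟩
  have he : e ∈ Submodule.span A (s : Set M) := by rw [hs]; trivial
  induction he using Submodule.span_induction with
  | mem x hx => exact Submodule.subset_span (by simpa using ⟨x, hx, rfl⟩)
  | zero => simp
  | add x y _ _ hx hy => rw [map_add]; exact add_mem hx hy
  | smul a x _ hx => rw [h.smul]; exact Submodule.smul_mem _ _ hx

/-- The map between base changes. -/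
noncomputable def map {M' N' : Type} [AddCommGroup M'] [Module A M'] [AddCommGroup N']
    [Module B N'] {φ' : M' →+ N'} (h : IsBC ρ φ) (h' : IsBC ρ φ') (f : M →ₗ[A] M') :
    N →ₗ[B] N' :=
  h.lift (φ'.comp f.toAddMonoidHom) (fun a e => by simp [h'.smul])

lemma map_apply {M' N' : Type} [AddCommGroup M'] [Module A M'] [AddCommGroup N']
    [Module B N'] {φ' : M' →+ N'} (h : IsBC ρ φ) (h' : IsBC ρ φ') (f : M →ₗ[A] M') (e : M) :
    h.map h' f (φ e) = φ' (f e) := h.lift_apply _ _ e

/-- A free module. -/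
lemma finsupp (ρ : A →+* B) (ι : Type) :
    IsBC ρ (Finsupp.mapRange.addMonoidHom (ι := ι) (ρ : A →+ B)) := by
  refine ⟨fun a e => ?_, fun Q _ _ g hg => ?_⟩
  · ext i; simp
  · refine ⟨Finsupp.lift Q B ι (fun i => g (Finsupp.single i 1)), fun e => ?_, fun G hG => ?_⟩
    · induction e using Finsupp.induction_linear with
      | zero => simp
      | add x y hx hy => rw [map_add, map_add, hx, hy, map_add]
      | single i a =>
        have : Finsupp.single i a = a • Finsupp.single i (1 : A) := by simp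
        rw [this, hg]
        simp
    · ext i
      have := hG (Finsupp.single i 1)
      simp only [Finsupp.mapRange.addMonoidHom_apply, Finsupp.mapRange_single] at this
      simpa using this

/-- A projective module embeds as a direct summand in a free module, compatibly with base
change. -/
lemma exists_split [Module.Projective A M] (h : IsBC ρ φ) :
    ∃ (j : M →ₗ[A] (M →₀ A)) (J : N →ₗ[B] (M →₀ B)) (P : (M →₀ B) →ₗ[B] N),
      Function.Injective j ∧ (∀ e, J (φ e) = Finsupp.mapRange.addMonoidHom (ρ : A →+ B) (j e)) ∧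
      P ∘ₗ J = LinearMap.id := by
  obtain ⟨s, hs⟩ := Module.projective_def'.1 (inferInstance : Module.Projective A M)
  refine ⟨s, h.map (finsupp ρ M) s, (finsupp ρ M).map h (Finsupp.linearCombination A id), ?_, ?_, ?_⟩
  · intro x y hxy
    have := congrArg (Finsupp.linearCombination A id) hxy
    have h2 : ∀ z, Finsupp.linearCombination A id (s z) = z := fun z => by
      exact congrArg (fun f : M →ₗ[A] M => f z) hs
    rwa [h2, h2] at this
  · intro e
    exact h.map_apply _ _ e
  · refine h.ext (fun e => ?_)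
    rw [LinearMap.comp_apply, map_apply, map_apply, LinearMap.id_apply]
    congr 1
    exact congrArg (fun f : M →ₗ[A] M => f e) hs

lemma projective [Module.Projective A M] (h : IsBC ρ φ) : Module.Projective B N := by
  obtain ⟨j, J, P, -, -, hP⟩ := h.exists_split
  exact Module.Projective.of_split J P hP

lemma injective [Module.Projective A M] (h : IsBC ρ φ) (hρ : Function.Injective ρ) :
    Function.Injective φ := by
  obtain ⟨j, J, P, hj, hJ, -⟩ := h.exists_split
  intro x y hxy
  apply hj
  have h1 : Finsupp.mapRange.addMonoidHom (ρ : A →+ B) (j x) =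
      Finsupp.mapRange.addMonoidHom (ρ : A →+ B) (j y) := by rw [← hJ, ← hJ, hxy]
  ext i
  have h2 := congrArg (fun f : M →₀ B => f i) h1
  simp only [Finsupp.mapRange.addMonoidHom_apply, Finsupp.mapRange_apply] at h2
  exact hρ h2

end basic

section exact

variable {A B : Type} [CommRing A] [CommRing B] {ρ : A →+* B}
  {M' M M'' N' N N'' : Type} [AddCommGroup M'] [Module A M'] [AddCommGroup M] [Module A M]
  [AddCommGroup M''] [Module A M''] [AddCommGroup N'] [Module B N'] [AddCommGroup N] [Module B N]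
  [AddCommGroup N''] [Module B N''] {φ' : M' →+ N'} {φ : M →+ N} {φ'' : M'' →+ N''}

/-- Base change preserves short exact sequences with projective quotient. -/
lemma exact [Module.Projective A M''] (h' : IsBC ρ φ') (h : IsBC ρ φ) (h'' : IsBC ρ φ'')
    (f : M' →ₗ[A] M) (g : M →ₗ[A] M'') (hf : Function.Injective f) (hfg : Function.Exact f g)
    (hg : Function.Surjective g) :
    Function.Injective (h'.map h f) ∧ Function.Exact (h'.map h f) (h.map h'' g) ∧
      Function.Surjective (h.map h'' g) := by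
  obtain ⟨s, hs⟩ := Module.projective_lifting_property g LinearMap.id hg
  have hs' : ∀ x, g (s x) = x := fun x => congrArg (fun F : M'' →ₗ[A] M'' => F x) hs
  have hmem : ∀ x : M, (LinearMap.id - s ∘ₗ g : M →ₗ[A] M) x ∈ LinearMap.range f := by
    intro x
    have : g ((LinearMap.id - s ∘ₗ g : M →ₗ[A] M) x) = 0 := by simp [hs']
    exact (hfg _).1 this
  let r : M →ₗ[A] M' := (LinearEquiv.ofInjective f hf).symm.toLinearMap ∘ₗ
    LinearMap.codRestrict (LinearMap.range f) (LinearMap.id - s ∘ₗ g) hmem
  have hr : ∀ x, f (r x) = x - s (g x) := by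
    intro x
    have h1 : (LinearEquiv.ofInjective f hf) (r x) =
        LinearMap.codRestrict (LinearMap.range f) (LinearMap.id - s ∘ₗ g) hmem x := by
      simp [r]
    have h2 := congrArg Subtype.val h1
    simpa using h2
  have hrf : ∀ x, r (f x) = x := by
    intro x
    apply hf
    rw [hr, (hfg (f x)).2 ⟨x, rfl⟩, map_zero, sub_zero]
  have e1 : (h.map h' r) ∘ₗ (h'.map h f) = LinearMap.id := h'.ext (fun e => by
    rw [LinearMap.comp_apply, map_apply, map_apply, hrf, LinearMap.id_apply])
  have e2 : (h.map h'' g) ∘ₗ (h''.map h s) = LinearMap.id := h''.ext (fun e => by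
    rw [LinearMap.comp_apply, map_apply, map_apply, hs', LinearMap.id_apply])
  have e3 : (h'.map h f) ∘ₗ (h.map h' r) + (h''.map h s) ∘ₗ (h.map h'' g) = LinearMap.id :=
    h.ext (fun e => by
      rw [LinearMap.add_apply, LinearMap.comp_apply, LinearMap.comp_apply, map_apply, map_apply,
        map_apply, map_apply, hr, LinearMap.id_apply, ← map_add, sub_add_cancel])
  have e4 : (h.map h'' g) ∘ₗ (h'.map h f) = 0 := h'.ext (fun e => by
    rw [LinearMap.comp_apply, map_apply, map_apply, (hfg (f e)).2 ⟨e, rfl⟩, map_zero,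
      LinearMap.zero_apply])
  refine ⟨?_, ?_, ?_⟩
  · exact Function.LeftInverse.injective (g := h.map h' r)
      (fun x => congrArg (fun F : N' →ₗ[B] N' => F x) e1)
  · intro y
    constructor
    · intro hy
      have := congrArg (fun F : N →ₗ[B] N => F y) e3
      simp only [LinearMap.add_apply, LinearMap.comp_apply, hy, map_zero, add_zero,
        LinearMap.id_apply] at this
      exact ⟨_, this⟩
    · rintro ⟨x, rfl⟩
      exact congrArg (fun F : N' →ₗ[B] N'' => F x) e4
  · exact Function.RightInverse.surjective (g := h''.map h s)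
      (fun x => congrArg (fun F : N'' →ₗ[B] N'' => F x) e2)

end exact

end IsBC

end W633.LT
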