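import Mathlib

/-!
# The threefold `X` and its log `K_0`

`k` is a field.  Everything lives on the infinite cyclic covering of `X`: the
product of `P^1 x P^1` (coordinates `s_1, s_2`) with the infinite chain of
projective lines whose cone complex is the upper half plane, sliced at height
one: the components are the integers and the nodes are the intervals
`[i, i+1]`.  The deck transformation interchanges the two factors `P^1`
and translates the line by `2`.  `X` is the quotient by the deck transformation.
-/

namespace W633.LT

/-- The lattice of exponents.  The element `(i, j, x, y)` stands for the monomial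
`s_1 ^ i * s_2 ^ j * (the integral affine function q ↦ x * q + y)`. -/
abbrev Lat : Type := ℤ × ℤ × ℤ × ℤ

open Classical in
/-- The action of the `n`-th power of the deck transformation on exponents: exchange
`s_1, s_2` if `n` is odd, and replace the affine function `f` by `q ↦ f (q - 2 n)`. -/
noncomputable def deck (n : ℤ) : Lat →+ Lat where
  toFun m := (if Even n then m.1 else m.2.1, if Even n then m.2.1 else m.1,
    m.2.2.1, m.2.2.2 - 2 * n * m.2.2.1)
  map_zero' := by simp
  map_add' m m' := by
    by_cases h : Even n
    · simp only [h, if_true]; ext <;> simp; ring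
    · simp only [h, if_false]; ext <;> simp; ring

/-- The combinatorial data of an affine chart: a chart of the first `P^1` (`a = 1`: the
chart with coordinate `s_1`; `a = -1`: coordinate `s_1⁻¹`; `a = 0`: the overlap), a
chart of the second `P^1`, and an interval `[l, r]`. -/
structure Raw where
  /-- chart of the first projective line -/
  a : SignType
  /-- chart of the second projective line -/
  b : SignType
  /-- left end of the interval -/
  l : ℚ
  /-- right end of the interval -/
  r : ℚ

/-- The monoid of monomials which are regular on the chart. -/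
def Raw.mon (x : Raw) : AddSubmonoid Lat where
  carrier := {m | 0 ≤ (x.a : ℤ) * m.1 ∧ 0 ≤ (x.b : ℤ) * m.2.1 ∧
    0 ≤ (m.2.2.1 : ℚ) * x.l + m.2.2.2 ∧ 0 ≤ (m.2.2.1 : ℚ) * x.r + m.2.2.2}
  zero_mem' := by simp
  add_mem' := by
    rintro m n ⟨h1, h2, h3, h4⟩ ⟨g1, g2, g3, g4⟩
    refine ⟨?_, ?_, ?_, ?_⟩
    · simp only [Prod.fst_add]; linarith
    · simp only [Prod.snd_add, Prod.fst_add]; linarith
    · simp only [Prod.snd_add, Prod.fst_add]; push_cast; linarith
    · simp only [Prod.snd_add, Prod.fst_add]; push_cast; linarith

/-- The exponent of the uniformiser `t` of the log point: the constant function `1`. -/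
def unif : Lat := (0, 0, 0, 1)

lemma unif_mem (x : Raw) : unif ∈ x.mon := by
  refine ⟨?_, ?_, ?_, ?_⟩ <;> simp [unif]

/-- The coordinate ring of the chart: the monoid algebra modulo `t`. -/
abbrev Raw.ring (x : Raw) (k : Type) [Field k] : Type :=
  AddMonoidAlgebra k x.mon ⧸
    Ideal.span {(AddMonoidAlgebra.single ⟨unif, unif_mem x⟩ 1 : AddMonoidAlgebra k x.mon)}

open Classical in
/-- The monomial with exponent `m` as a function on the chart (`0` if it is not regular). -/
noncomputable def Raw.mono (x : Raw) (k : Type) [Field k] (m : Lat) : x.ring k :=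
  if h : m ∈ x.mon then
    Ideal.Quotient.mk _ (AddMonoidAlgebra.single ⟨m, h⟩ 1 : AddMonoidAlgebra k x.mon) else 0

/-- The `n`-th power of the deck transformation maps the chart `y` into the chart `x`:
it induces a map from the monomials on `x` to the monomials on `y`. -/
def IsHom (n : ℤ) (x y : Raw) : Prop := ∀ m ∈ x.mon, deck n m ∈ y.mon

lemma deck_zero (m : Lat) : deck 0 m = m := by simp [deck]

lemma deck_add (n n' : ℤ) (m : Lat) : deck (n' + n) m = deck n' (deck n m) := by
  by_cases h : Even n <;> by_cases h' : Even n' <;>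
    simp [deck, h, h', Int.even_add] <;> ring

lemma deck_unif (n : ℤ) : deck n unif = unif := by
  by_cases h : Even n <;> simp [deck, h, unif]

lemma IsHom.refl (x : Raw) : IsHom 0 x x := fun m hm => by rwa [deck_zero]

lemma IsHom.comp {n n' : ℤ} {x y z : Raw} (h : IsHom n x y) (h' : IsHom n' y z) :
    IsHom (n' + n) x z := fun a ha => by
  rw [deck_add]; exact h' _ (h a ha)

/-- The homomorphism of monoids given by `deck n`. -/
noncomputable def monMap {n : ℤ} {x y : Raw} (h : IsHom n x y) : x.mon →+ y.mon where
  toFun m := ⟨deck n m.1, h m.1 m.2⟩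
  map_zero' := by apply Subtype.ext; simp
  map_add' a b := by apply Subtype.ext; simp

/-- The homomorphism of coordinate rings given by `deck n`. -/
noncomputable def ringMap (k : Type) [Field k] {n : ℤ} {x y : Raw} (h : IsHom n x y) :
    x.ring k →+* y.ring k :=
  Ideal.quotientMap _ (AddMonoidAlgebra.mapDomainRingHom k (monMap h)) (by
    rw [Ideal.span_le, Set.singleton_subset_iff]
    simp only [SetLike.mem_coe, Ideal.mem_comap]
    apply Ideal.subset_span
    simp only [Set.mem_singleton_iff, AddMonoidAlgebra.mapDomainRingHom_apply,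
      AddMonoidAlgebra.mapDomain_single]
    congr 1
    exact Subtype.ext (deck_unif n))

/-- `N` is the base change of the `A`-module `M` along `ρ : A → B` (universal property
of the extension of scalars). -/
def IsBC {A B M N : Type} [CommRing A] [CommRing B] [AddCommGroup M] [Module A M]
    [AddCommGroup N] [Module B N] (ρ : A →+* B) (φ : M →+ N) : Prop :=
  (∀ a e, φ (a • e) = ρ a • φ e) ∧
  ∀ (P : Type) [AddCommGroup P] [Module B P] (g : M →+ P),
    (∀ a e, g (a • e) = ρ a • g e) → ∃! G : N →ₗ[B] P, ∀ e, G (φ e) = g e

/-- A log modification `X_S` of `X`: a `2`-periodic, locally finite set of rational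
points of the line containing the integers. -/
structure Subdiv where
  /-- the points of the subdivision -/
  pts : Set ℚ
  int_mem : ∀ n : ℤ, (n : ℚ) ∈ pts
  periodic : ∀ q, q ∈ pts ↔ q + 2 ∈ pts
  finite : (pts ∩ Set.Icc 0 2).Finite

/-- The charts of the infinite cyclic coverings of `X_S` and of its log modifications:
intervals which lie in one of the closed cells of the subdivision. -/
abbrev Chart (S : Subdiv) : Type :=
  {x : Raw // x.l ≤ x.r ∧ ∀ q ∈ S.pts, ¬ (x.l < q ∧ q < x.r)}

/-- A vector bundle on `X_S`: finitely generated projective modules on all charts of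
the infinite cyclic covering, with compatible base change isomorphisms for all maps
between charts (restrictions and powers of the deck transformation). -/
structure Bundle (k : Type) [Field k] (S : Subdiv) where
  /-- the module of sections on a chart -/
  mod : Chart S → Type
  [grp : ∀ x, AddCommGroup (mod x)]
  [module : ∀ x : Chart S, Module (x.1.ring k) (mod x)]
  [finite : ∀ x : Chart S, Module.Finite (x.1.ring k) (mod x)]
  [projective : ∀ x : Chart S, Module.Projective (x.1.ring k) (mod x)]
  /-- the restriction maps -/
  res : ∀ {n : ℤ} {x y : Chart S}, IsHom n x.1 y.1 → mod x →+ mod y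
  res_bc : ∀ {n : ℤ} {x y : Chart S} (h : IsHom n x.1 y.1), IsBC (ringMap k h) (res h)
  res_refl : ∀ (x : Chart S) (e : mod x), res (IsHom.refl x.1) e = e
  res_comp : ∀ {n n' : ℤ} {x y z : Chart S} (h : IsHom n x.1 y.1) (h' : IsHom n' y.1 z.1)
    (e : mod x), res h' (res h e) = res (h.comp h') e

attribute [instance] Bundle.grp Bundle.module Bundle.finite Bundle.projective

variable {k : Type} [Field k] {S : Subdiv}

/-- `0 → E' → E → E'' → 0` is a short exact sequence of vector bundles. -/
def IsExact (E' E E'' : Bundle k S) : Prop :=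
  ∃ (f : ∀ x : Chart S, E'.mod x →ₗ[x.1.ring k] E.mod x)
    (g : ∀ x : Chart S, E.mod x →ₗ[x.1.ring k] E''.mod x),
    (∀ {n : ℤ} {x y : Chart S} (h : IsHom n x.1 y.1) (e : E'.mod x),
      E.res h (f x e) = f y (E'.res h e)) ∧
    (∀ {n : ℤ} {x y : Chart S} (h : IsHom n x.1 y.1) (e : E.mod x),
      E''.res h (g x e) = g y (E.res h e)) ∧
    ∀ x, Function.Injective (f x) ∧ Function.Exact (f x) (g x) ∧ Function.Surjective (g x)

/-- A global section of `M^gp / O^*` on `X_S`: a `2`-periodic function on the line
which is integral affine on the cells; `m l r` is a lift to `M^gp` on the charts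
with interval `[l, r]`. -/
structure PL (S : Subdiv) where
  /-- the function -/
  fn : ℚ → ℚ
  periodic : ∀ q, fn (q + 2) = fn q
  /-- the local lifts -/
  lift : ℚ → ℚ → ℤ × ℤ
  lift_eq : ∀ x : Chart S, ∀ q, x.1.l ≤ q → q ≤ x.1.r →
    fn q = (lift x.1.l x.1.r).1 * q + (lift x.1.l x.1.r).2

/-- The exponent of the lift of the section on a chart. -/
def PL.exp (a : PL S) (x : Chart S) : Lat := (0, 0, a.lift x.1.l x.1.r)

/-- `F` is the tensor product of `E` with the line bundle `l_a`, whose transition
functions are the quotients of the local lifts of `a` to `M^gp`. -/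
def IsTwist (a : PL S) (E F : Bundle k S) : Prop :=
  ∃ φ : ∀ x : Chart S, E.mod x ≃ₗ[x.1.ring k] F.mod x,
    ∀ {n : ℤ} {x y : Chart S} (h : IsHom n x.1 y.1) (e : E.mod x),
      F.res h (φ x e) = y.1.mono k (deck n (a.exp x) - a.exp y) • φ y (E.res h e)

/-- A chart of a finer subdivision is a chart of the coarser one. -/
def Chart.coarse {S S' : Subdiv} (hS : S.pts ⊆ S'.pts) (x : Chart S') : Chart S :=
  ⟨x.1, x.2.1, fun q hq => x.2.2 q (hS hq)⟩

/-- The pull-back of a vector bundle on `X_S` to the log modification `X_{S'}`. -/
def Bundle.pull (E : Bundle k S) {S' : Subdiv} (hS : S.pts ⊆ S'.pts) : Bundle k S' where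
  mod x := E.mod (x.coarse hS)
  grp x := E.grp (x.coarse hS)
  module x := E.module (x.coarse hS)
  finite x := E.finite (x.coarse hS)
  projective x := E.projective (x.coarse hS)
  res {_ x y} h := E.res (x := x.coarse hS) (y := y.coarse hS) h
  res_bc {_ x y} h := E.res_bc (x := x.coarse hS) (y := y.coarse hS) h
  res_refl x e := E.res_refl (x.coarse hS) e
  res_comp {_ _ x y z} h h' e :=
    E.res_comp (x := x.coarse hS) (y := y.coarse hS) (z := z.coarse hS) h h' e

/-- The relations of `K_0^log(X)`: short exact sequences, pull-backs to log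
modifications, and `[E ⊗ l_a] = [E]`. -/
inductive Rel (k : Type) [Field k] : FreeAbelianGroup (Σ S : Subdiv, Bundle k S) → Prop
  | exact {S : Subdiv} (E' E E'' : Bundle k S) (h : IsExact E' E E'') :
      Rel k (.of ⟨S, E⟩ - .of ⟨S, E'⟩ - .of ⟨S, E''⟩)
  | pull {S S' : Subdiv} (hS : S.pts ⊆ S'.pts) (E : Bundle k S) :
      Rel k (.of ⟨S', E.pull hS⟩ - .of ⟨S, E⟩)
  | twist {S : Subdiv} (a : PL S) (E F : Bundle k S) (h : IsTwist a E F) :
      Rel k (.of ⟨S, F⟩ - .of ⟨S, E⟩)

/-- The group `K_0^log(X)`. -/
def K0log (k : Type) [Field k] : Type 1 :=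
  FreeAbelianGroup (Σ S : Subdiv, Bundle k S) ⧸ AddSubgroup.closure {z | Rel k z}

noncomputable instance (k : Type) [Field k] : AddCommGroup (K0log k) :=
  inferInstanceAs (AddCommGroup (_ ⧸ AddSubgroup.closure {z | Rel k z}))

end W633.LT
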