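import Pool.Agent.W633.LT.Defs

/-!
# Auxiliary notions for the proof: bundles on the infinite covering, bundles on `P^1 x P^1`,
operator families and their indices.
-/

namespace W633.LT

/-! ### Linear maps with finite dimensional kernel and cokernel -/

section index
variable {k : Type} [Field k]

/-- Kernel and cokernel are finite dimensional. -/
def Fred {V W : Type} [AddCommGroup V] [Module k V] [AddCommGroup W] [Module k W]
    (f : V →ₗ[k] W) : Prop :=
  FiniteDimensional k (LinearMap.ker f) ∧ FiniteDimensional k (W ⧸ LinearMap.range f)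

/-- The index of a linear map. -/
noncomputable def ind {V W : Type} [AddCommGroup V] [Module k V] [AddCommGroup W] [Module k W]
    (f : V →ₗ[k] W) : ℤ :=
  (Module.finrank k (LinearMap.ker f) : ℤ) - (Module.finrank k (W ⧸ LinearMap.range f) : ℤ)

end index

/-- Additivity of the index. -/
def IndAdd : Prop :=
  ∀ (k : Type) [Field k] (V' V V'' W' W W'' : Type)
    [AddCommGroup V'] [AddCommGroup V] [AddCommGroup V''] [AddCommGroup W'] [AddCommGroup W]
    [AddCommGroup W''] [Module k V'] [Module k V] [Module k V''] [Module k W'] [Module k W]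
    [Module k W''] (i : V' →ₗ[k] V) (p : V →ₗ[k] V'') (j : W' →ₗ[k] W) (q : W →ₗ[k] W'')
    (f' : V' →ₗ[k] W') (f : V →ₗ[k] W) (f'' : V'' →ₗ[k] W''),
    Function.Injective i → Function.Exact i p → Function.Surjective p →
    Function.Injective j → Function.Exact j q → Function.Surjective q →
    j ∘ₗ f' = f ∘ₗ i → q ∘ₗ f = f'' ∘ₗ p → Fred f' → Fred f → Fred f'' →
    ind f = ind f' + ind f''

/-! ### Coherent sheaves on the projective line -/

/-- A coherent sheaf on `P^1` over `k` in terms of operators: `X`, `Y`, `Z` are the sections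
on the charts with coordinate `s`, `s⁻¹` and on the overlap; `sx, sz` are multiplication by
`s`, and `sy` is multiplication by `s⁻¹`. -/
structure Tri (k : Type) [Field k] where
  X : Type
  Y : Type
  Z : Type
  [gx : AddCommGroup X]
  [gy : AddCommGroup Y]
  [gz : AddCommGroup Z]
  [mx : Module k X]
  [my : Module k Y]
  [mz : Module k Z]
  sx : X →ₗ[k] X
  sy : Y →ₗ[k] Y
  sz : Z ≃ₗ[k] Z
  rx : X →ₗ[k] Z
  ry : Y →ₗ[k] Z
  rx_s : ∀ x, rx (sx x) = sz (rx x)
  ry_s : ∀ y, ry (sy y) = sz.symm (ry y)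
  fgx : ∃ W : Finset X, Submodule.span k {u | ∃ w ∈ W, ∃ i : ℕ, u = (sx ^ i) w} = ⊤
  fgy : ∃ W : Finset Y, Submodule.span k {u | ∃ w ∈ W, ∃ i : ℕ, u = (sy ^ i) w} = ⊤
  locx : ∀ z, ∃ i : ℕ, ((sz : Z →ₗ[k] Z) ^ i) z ∈ LinearMap.range rx
  locy : ∀ z, ∃ i : ℕ, ((sz.symm : Z →ₗ[k] Z) ^ i) z ∈ LinearMap.range ry
  torx : ∀ x, rx x = 0 → ∃ i : ℕ, (sx ^ i) x = 0
  tory : ∀ y, ry y = 0 → ∃ i : ℕ, (sy ^ i) y = 0

attribute [instance] Tri.gx Tri.gy Tri.gz Tri.mx Tri.my Tri.mz

/-- The Cech differential of the twist by `-1`. -/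
def Tri.D {k : Type} [Field k] (T : Tri k) : T.X × T.Y →ₗ[k] T.Z :=
  T.rx ∘ₗ LinearMap.fst k T.X T.Y - (T.sz.symm : T.Z →ₗ[k] T.Z) ∘ₗ T.ry ∘ₗ LinearMap.snd k T.X T.Y

/-- Finiteness of the cohomology of coherent sheaves on `P^1`. -/
def TriFred : Prop := ∀ (k : Type) [Field k] (T : Tri k), Fred T.D

/-! ### Operator families over `P^1 x P^1` -/

/-- The chart `b'` is contained in the chart `b` of `P^1`. -/
def Sub (b b' : SignType) : Prop := b' = b ∨ b' = 0

lemma Sub.refl (b : SignType) : Sub b b := Or.inl rfl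

lemma Sub.zero (b : SignType) : Sub b 0 := Or.inr rfl

lemma Sub.trans {b b' b'' : SignType} (h : Sub b b') (h' : Sub b' b'') : Sub b b'' := by
  rcases h' with rfl | rfl
  · exact h
  · exact Or.inr rfl

/-- A quasi-coherent sheaf on `P^1 x P^1` over `k` in terms of operators: `act b c m n` is
multiplication by `s^m t^n` on the sections on the chart `(b, c)`, meaningful if
`0 ≤ b * m` and `0 ≤ c * n`. -/
structure Fam (k : Type) [Field k] where
  V : SignType → SignType → Type
  [grp : ∀ b c, AddCommGroup (V b c)]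
  [mod : ∀ b c, Module k (V b c)]
  act : ∀ b c, ℤ → ℤ → V b c →ₗ[k] V b c
  act_zero : ∀ b c v, act b c 0 0 v = v
  act_add : ∀ (b c : SignType) (m n m' n' : ℤ), 0 ≤ (b : ℤ) * m → 0 ≤ (b : ℤ) * m' →
    0 ≤ (c : ℤ) * n → 0 ≤ (c : ℤ) * n' → ∀ v,
    act b c (m + m') (n + n') v = act b c m n (act b c m' n' v)
  res : ∀ {b c b' c' : SignType}, Sub b b' → Sub c c' → V b c →ₗ[k] V b' c'
  res_act : ∀ {b c b' c' : SignType} (hb : Sub b b') (hc : Sub c c') (m n : ℤ),
    0 ≤ (b : ℤ) * m → 0 ≤ (c : ℤ) * n → ∀ v,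
    res hb hc (act b c m n v) = act b' c' m n (res hb hc v)
  res_refl : ∀ b c v, res (Sub.refl b) (Sub.refl c) v = v
  res_comp : ∀ {b c b' c' b'' c'' : SignType} (hb : Sub b b') (hc : Sub c c')
    (hb' : Sub b' b'') (hc' : Sub c' c'') (v : V b c),
    res hb' hc' (res hb hc v) = res (hb.trans hb') (hc.trans hc') v

attribute [instance] Fam.grp Fam.mod

namespace Fam
variable {k : Type} [Field k] (N : Fam k)

/-- The finiteness, localisation and separation properties. -/
structure Good : Prop where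
  fg : ∀ b c : SignType, ∃ W : Finset (N.V b c), Submodule.span k
    {u | ∃ w ∈ W, ∃ m n : ℤ, 0 ≤ (b : ℤ) * m ∧ 0 ≤ (c : ℤ) * n ∧ u = N.act b c m n w} = ⊤
  inj : ∀ {b c b' c' : SignType} (hb : Sub b b') (hc : Sub c c'),
    Function.Injective (N.res hb hc)
  loc : ∀ {b c b' c' : SignType} (hb : Sub b b') (hc : Sub c c') (v : N.V b' c'),
    ∃ m n : ℤ, 0 ≤ (b : ℤ) * m ∧ 0 ≤ (c : ℤ) * n ∧ (b' = b → m = 0) ∧ (c' = c → n = 0) ∧
      N.act b' c' m n v ∈ LinearMap.range (N.res hb hc)
  sep : ∃ q0 : ℤ, ∀ q ≥ q0, ∀ (b : SignType) (x : N.V b 1) (y : N.V b (-1)),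
    N.res (Sub.refl b) (Sub.zero 1) x =
      N.act b 0 0 (-q) (N.res (Sub.refl b) (Sub.zero (-1)) y) → x = 0

/-- `t^p N_+ + t^(-q) N_-` -/
def sub (b : SignType) (p q : ℤ) : Submodule k (N.V b 0) :=
  (LinearMap.range (N.res (Sub.refl b) (Sub.zero 1))).map (N.act b 0 0 p) ⊔
    (LinearMap.range (N.res (Sub.refl b) (Sub.zero (-1)))).map (N.act b 0 0 (-q))

lemma sub_act (b : SignType) (p q m : ℤ) (hm : 0 ≤ (b : ℤ) * m) :
    N.sub b p q ≤ (N.sub b p q).comap (N.act b 0 m 0) := by
  have key : ∀ c : SignType, ∀ n : ℤ,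
      (LinearMap.range (N.res (Sub.refl b) (Sub.zero c))).map (N.act b 0 0 n) ≤
      ((LinearMap.range (N.res (Sub.refl b) (Sub.zero c))).map (N.act b 0 0 n)).comap
        (N.act b 0 m 0) := by
    intro c n
    rintro _ ⟨_, ⟨x, rfl⟩, rfl⟩
    rw [Submodule.mem_comap]
    refine ⟨N.res (Sub.refl b) (Sub.zero c) (N.act b c m 0 x), ⟨_, rfl⟩, ?_⟩
    rw [N.res_act _ _ m 0 hm (by simp), ← N.act_add b 0 0 n m 0 (by simp) hm (by simp) (by simp),
      ← N.act_add b 0 m 0 0 n hm (by simp) (by simp) (by simp)]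
    simp
  refine sup_le ((key 1 p).trans ?_) ((key (-1) (-q)).trans ?_)
  · exact Submodule.comap_mono le_sup_left
  · exact Submodule.comap_mono le_sup_right

lemma sub_res (b : SignType) (p q : ℤ) :
    N.sub b p q ≤ (N.sub 0 p q).comap (N.res (Sub.zero b) (Sub.refl 0)) := by
  have key : ∀ c : SignType, ∀ n : ℤ,
      (LinearMap.range (N.res (Sub.refl b) (Sub.zero c))).map (N.act b 0 0 n) ≤
      ((LinearMap.range (N.res (Sub.refl 0) (Sub.zero c))).map (N.act 0 0 0 n)).comap
        (N.res (Sub.zero b) (Sub.refl 0)) := by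
    intro c n
    rintro _ ⟨_, ⟨x, rfl⟩, rfl⟩
    rw [Submodule.mem_comap]
    refine ⟨N.res (Sub.refl 0) (Sub.zero c) (N.res (Sub.zero b) (Sub.refl c) x), ⟨_, rfl⟩, ?_⟩
    rw [N.res_act _ _ 0 n (by simp) (by simp), N.res_comp, N.res_comp]
  refine sup_le ((key 1 p).trans ?_) ((key (-1) (-q)).trans ?_)
  · exact Submodule.comap_mono le_sup_left
  · exact Submodule.comap_mono le_sup_right

/-- `H_b(p, q) = N_{b0} / (t^p N_{b+} + t^(-q) N_{b-})` -/
abbrev H (b : SignType) (p q : ℤ) : Type := N.V b 0 ⧸ N.sub b p q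

/-- The restriction map `H_b(p, q) → H_0(p, q)`. -/
def resH (b : SignType) (p q : ℤ) : N.H b p q →ₗ[k] N.H 0 p q :=
  Submodule.mapQ _ _ (N.res (Sub.zero b) (Sub.refl 0)) (N.sub_res b p q)

/-- Multiplication by `s⁻¹` on `H_0(p, q)`. -/
def sH (p q : ℤ) : N.H 0 p q →ₗ[k] N.H 0 p q :=
  Submodule.mapQ _ _ (N.act 0 0 (-1) 0) (N.sub_act 0 p q (-1) (by simp))

/-- The Cech differential of the sheaf `H(p, q)(-1)` on `P^1`. -/
def DH (p q : ℤ) : N.H 1 p q × N.H (-1) p q →ₗ[k] N.H 0 p q :=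
  N.resH 1 p q ∘ₗ LinearMap.fst k _ _ - N.sH p q ∘ₗ N.resH (-1) p q ∘ₗ LinearMap.snd k _ _

/-- `t^c N_{bc}` -/
def subL (b c : SignType) : Submodule k (N.V b c) := LinearMap.range (N.act b c 0 (c : ℤ))

lemma sgn_nonneg (c : SignType) : 0 ≤ (c : ℤ) * (c : ℤ) := mul_self_nonneg _

lemma subL_act (b c : SignType) (m : ℤ) (hm : 0 ≤ (b : ℤ) * m) :
    N.subL b c ≤ (N.subL b c).comap (N.act b c m 0) := by
  rintro _ ⟨x, rfl⟩
  refine ⟨N.act b c m 0 x, ?_⟩
  rw [← N.act_add b c 0 c m 0 (by simp) hm (sgn_nonneg c) (by simp),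
    ← N.act_add b c m 0 0 c hm (by simp) (by simp) (sgn_nonneg c)]
  simp

lemma subL_res (b c : SignType) :
    N.subL b c ≤ (N.subL 0 c).comap (N.res (Sub.zero b) (Sub.refl c)) := by
  rintro _ ⟨x, rfl⟩
  refine ⟨N.res (Sub.zero b) (Sub.refl c) x, ?_⟩
  rw [N.res_act _ _ 0 c (by simp) (sgn_nonneg c)]

/-- The restriction of the sheaf to the line `t^c = 0` (`c = 1` or `c = -1`). -/
abbrev L (b c : SignType) : Type := N.V b c ⧸ N.subL b c

/-- The restriction map `L_b → L_0`. -/
def resL (b c : SignType) : N.L b c →ₗ[k] N.L 0 c :=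
  Submodule.mapQ _ _ (N.res (Sub.zero b) (Sub.refl c)) (N.subL_res b c)

/-- Multiplication by `s⁻¹` on `L_0`. -/
def sL (c : SignType) : N.L 0 c →ₗ[k] N.L 0 c :=
  Submodule.mapQ _ _ (N.act 0 c (-1) 0) (N.subL_act 0 c (-1) (by simp))

/-- The Cech differential of the sheaf `L(-1)` on `P^1`. -/
def DL (c : SignType) : N.L 1 c × N.L (-1) c →ₗ[k] N.L 0 c :=
  N.resL 1 c ∘ₗ LinearMap.fst k _ _ - N.sL c ∘ₗ N.resL (-1) c ∘ₗ LinearMap.snd k _ _

/-- The degree of the restriction to the line `t^c = 0`. -/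
noncomputable def deg (c : SignType) : ℤ := ind (N.DL c)

/-- The approximations of the invariant `e`. -/
noncomputable def E (q : ℤ) : ℤ := -ind (N.DH 0 q) + (q - 1) * N.deg 1

open Classical in
/-- The invariant `e` (the second Chern character number): the eventual value of `E q`. -/
noncomputable def e : ℤ :=
  if h : ∃ z : ℤ, ∃ q0 : ℤ, ∀ q ≥ q0, N.E q = z then h.choose else 0

/-- Short exact sequences of families. -/
def Exact (N' N N'' : Fam k) : Prop :=
  ∃ (f : ∀ b c, N'.V b c →ₗ[k] N.V b c) (g : ∀ b c, N.V b c →ₗ[k] N''.V b c),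
    (∀ (b c : SignType) (m n : ℤ) v, 0 ≤ (b : ℤ) * m → 0 ≤ (c : ℤ) * n →
      f b c (N'.act b c m n v) = N.act b c m n (f b c v)) ∧
    (∀ (b c : SignType) (m n : ℤ) v, 0 ≤ (b : ℤ) * m → 0 ≤ (c : ℤ) * n →
      g b c (N.act b c m n v) = N''.act b c m n (g b c v)) ∧
    (∀ {b c b' c' : SignType} (hb : Sub b b') (hc : Sub c c') (v),
      f b' c' (N'.res hb hc v) = N.res hb hc (f b c v)) ∧
    (∀ {b c b' c' : SignType} (hb : Sub b b') (hc : Sub c c') (v),
      g b' c' (N.res hb hc v) = N''.res hb hc (g b c v)) ∧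
    ∀ b c, Function.Injective (f b c) ∧ Function.Exact (f b c) (g b c) ∧
      Function.Surjective (g b c)

/-- `N'` is the twist of `N` by a line bundle of degree `em - ep` in the direction `t`. -/
def Twist (N N' : Fam k) (ep em : ℤ) : Prop :=
  ∃ φ : ∀ b c, N.V b c ≃ₗ[k] N'.V b c,
    (∀ (b c : SignType) (m n : ℤ) v, 0 ≤ (b : ℤ) * m → 0 ≤ (c : ℤ) * n →
      φ b c (N.act b c m n v) = N'.act b c m n (φ b c v)) ∧
    (∀ {b b' : SignType} (hb : Sub b b') (c) (v),
      N'.res hb (Sub.refl c) (φ b c v) = φ b' c (N.res hb (Sub.refl c) v)) ∧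
    (∀ {b b' : SignType} (hb : Sub b b') (v),
      N'.res hb (Sub.zero 1) (φ b 1 v) = N'.act b' 0 0 ep (φ b' 0 (N.res hb (Sub.zero 1) v))) ∧
    (∀ {b b' : SignType} (hb : Sub b b') (v),
      N'.res hb (Sub.zero (-1)) (φ b (-1) v) =
        N'.act b' 0 0 em (φ b' 0 (N.res hb (Sub.zero (-1)) v)))

end Fam

/-- The Cech differentials have finite dimensional kernels and cokernels. -/
def FamFred : Prop := ∀ (k : Type) [Field k] (N : Fam k), N.Good →
  (∀ p q, Fred (N.DH p q)) ∧ (∀ c, Fred (N.DL c))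

/-- The sequence `E q` is eventually constant, and the degree is locally constant. -/
def FamStab : Prop := ∀ (k : Type) [Field k] (N : Fam k), N.Good →
  (∃ q0 : ℤ, ∀ q ≥ q0, N.E q = N.e) ∧ N.deg 1 = N.deg (-1)

/-- Additivity of `e` and `deg`. -/
def FamAdd : Prop := ∀ (k : Type) [Field k] (N' N N'' : Fam k), N'.Good → N.Good → N''.Good →
  Fam.Exact N' N N'' → N.e = N'.e + N''.e ∧ ∀ c, N.deg c = N'.deg c + N''.deg c

/-- The effect of a twist. -/
def FamTwist : Prop := ∀ (k : Type) [Field k] (N N' : Fam k) (ep em : ℤ), N.Good → N'.Good →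
  Fam.Twist N N' ep em → N'.e = N.e + (em - ep) * N.deg 1 ∧ ∀ c, N'.deg c = N.deg c

/-! ### Vector bundles on `P^1 x P^1` -/

/-- The monoid of monomials `s^m t^n` which are regular on the chart `(b, c)`. -/
def Tor (b c : SignType) : AddSubmonoid (ℤ × ℤ) where
  carrier := {m | 0 ≤ (b : ℤ) * m.1 ∧ 0 ≤ (c : ℤ) * m.2}
  zero_mem' := by simp
  add_mem' := by
    rintro m n ⟨h1, h2⟩ ⟨g1, g2⟩
    refine ⟨?_, ?_⟩
    · simp only [Prod.fst_add]; linarith
    · simp only [Prod.snd_add]; linarith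

/-- The coordinate ring of the chart `(b, c)` of `P^1 x P^1`. -/
abbrev TorRing (k : Type) [Field k] (b c : SignType) : Type := AddMonoidAlgebra k (Tor b c)

open Classical in
/-- The monomial `s^m t^n`. -/
noncomputable def chi (k : Type) [Field k] (b c : SignType) (m : ℤ × ℤ) : TorRing k b c :=
  if h : m ∈ Tor b c then AddMonoidAlgebra.single ⟨m, h⟩ 1 else 0

lemma Tor_le {b c b' c' : SignType} (hb : Sub b b') (hc : Sub c c') : Tor b c ≤ Tor b' c' := by
  rintro m ⟨h1, h2⟩
  refine ⟨?_, ?_⟩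
  · rcases hb with rfl | rfl
    · exact h1
    · simp
  · rcases hc with rfl | rfl
    · exact h2
    · simp

/-- The restriction maps of the coordinate rings. -/
noncomputable def torMap (k : Type) [Field k] {b c b' c' : SignType} (hb : Sub b b')
    (hc : Sub c c') : TorRing k b c →+* TorRing k b' c' :=
  AddMonoidAlgebra.mapDomainRingHom k (AddSubmonoid.inclusion (Tor_le hb hc))

/-- A vector bundle on `P^1 x P^1`. -/
structure MFam (k : Type) [Field k] where
  mod : SignType → SignType → Type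
  [grp : ∀ b c, AddCommGroup (mod b c)]
  [module : ∀ b c, Module (TorRing k b c) (mod b c)]
  [finite : ∀ b c, Module.Finite (TorRing k b c) (mod b c)]
  [projective : ∀ b c, Module.Projective (TorRing k b c) (mod b c)]
  res : ∀ {b c b' c' : SignType}, Sub b b' → Sub c c' → mod b c →+ mod b' c'
  res_bc : ∀ {b c b' c' : SignType} (hb : Sub b b') (hc : Sub c c'),
    IsBC (torMap k hb hc) (res hb hc)
  res_refl : ∀ b c v, res (Sub.refl b) (Sub.refl c) v = v
  res_comp : ∀ {b c b' c' b'' c'' : SignType} (hb : Sub b b') (hc : Sub c c')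
    (hb' : Sub b' b'') (hc' : Sub c' c'') (v : mod b c),
    res hb' hc' (res hb hc v) = res (hb.trans hb') (hc.trans hc') v

attribute [instance] MFam.grp MFam.module MFam.finite MFam.projective

section chi
variable {k : Type} [Field k]

lemma chi_of_mem {b c : SignType} {m : ℤ × ℤ} (h : m ∈ Tor b c) :
    chi k b c m = AddMonoidAlgebra.single ⟨m, h⟩ 1 := dif_pos h

lemma chi_zero (b c : SignType) : chi k b c (0, 0) = 1 := by
  rw [chi_of_mem (show ((0 : ℤ), (0 : ℤ)) ∈ Tor b c from (Tor b c).zero_mem)]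
  rfl

lemma chi_mul {b c : SignType} {m n : ℤ × ℤ} (hm : m ∈ Tor b c) (hn : n ∈ Tor b c) :
    chi k b c m * chi k b c n = chi k b c (m + n) := by
  rw [chi_of_mem hm, chi_of_mem hn, chi_of_mem (add_mem hm hn), AddMonoidAlgebra.single_mul_single]
  simp

lemma torMap_chi {b c b' c' : SignType} (hb : Sub b b') (hc : Sub c c') {m : ℤ × ℤ}
    (hm : m ∈ Tor b c) : torMap k hb hc (chi k b c m) = chi k b' c' m := by
  rw [chi_of_mem hm, chi_of_mem (Tor_le hb hc hm)]
  simp [torMap, AddSubmonoid.inclusion]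

end chi

/-- The operator family of a vector bundle on `P^1 x P^1`. -/
noncomputable def MFam.toFam {k : Type} [Field k] (N : MFam k) : Fam k where
  V := N.mod
  grp := N.grp
  mod b c := Module.compHom (N.mod b c) (algebraMap k (TorRing k b c))
  act b c m n :=
    letI := Module.compHom (N.mod b c) (algebraMap k (TorRing k b c))
    { toFun := fun v => chi k b c (m, n) • v
      map_add' := fun v w => smul_add _ v w
      map_smul' := fun r v => by
        change chi k b c (m, n) • (algebraMap k (TorRing k b c) r • v) =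
          algebraMap k (TorRing k b c) r • (chi k b c (m, n) • v)
        rw [smul_smul, smul_smul, mul_comm] }
  act_zero b c v := by
    change chi k b c (0, 0) • v = v
    rw [chi_zero, one_smul]
  act_add b c m n m' n' hm hm' hn hn' v := by
    change chi k b c (m + m', n + n') • v = chi k b c (m, n) • (chi k b c (m', n') • v)
    rw [smul_smul, chi_mul ⟨hm, hn⟩ ⟨hm', hn'⟩]
    rfl
  res {b c b' c'} hb hc :=
    letI := Module.compHom (N.mod b c) (algebraMap k (TorRing k b c))
    letI := Module.compHom (N.mod b' c') (algebraMap k (TorRing k b' c'))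
    { toFun := N.res hb hc
      map_add' := fun v w => map_add _ v w
      map_smul' := fun r v => by
        change N.res hb hc (algebraMap k (TorRing k b c) r • v) =
          algebraMap k (TorRing k b' c') r • N.res hb hc v
        rw [(N.res_bc hb hc).1]
        congr 1
        simp [torMap, AddMonoidAlgebra.coe_algebraMap] }
  res_act {b c b' c'} hb hc m n hm hn v := by
    change N.res hb hc (chi k b c (m, n) • v) = chi k b' c' (m, n) • N.res hb hc v
    rw [(N.res_bc hb hc).1, torMap_chi hb hc ⟨hm, hn⟩]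
  res_refl b c v := N.res_refl b c v
  res_comp hb hc hb' hc' v := N.res_comp hb hc hb' hc' v

/-- The operator family of a vector bundle has the finiteness properties. -/
def MGood : Prop := ∀ (k : Type) [Field k] (N : MFam k), N.toFam.Good

namespace MFam
variable {k : Type} [Field k]

/-- Short exact sequences of vector bundles on `P^1 x P^1`. -/
def Exact (N' N N'' : MFam k) : Prop :=
  ∃ (f : ∀ b c : SignType, N'.mod b c →ₗ[TorRing k b c] N.mod b c)
    (g : ∀ b c : SignType, N.mod b c →ₗ[TorRing k b c] N''.mod b c),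
    (∀ {b c b' c' : SignType} (hb : Sub b b') (hc : Sub c c') (v),
      f b' c' (N'.res hb hc v) = N.res hb hc (f b c v)) ∧
    (∀ {b c b' c' : SignType} (hb : Sub b b') (hc : Sub c c') (v),
      g b' c' (N.res hb hc v) = N''.res hb hc (g b c v)) ∧
    ∀ b c, Function.Injective (f b c) ∧ Function.Exact (f b c) (g b c) ∧
      Function.Surjective (g b c)

/-- `N'` is the twist of `N` by a line bundle of degree `em - ep` in the direction `t`. -/
def Twist (N N' : MFam k) (ep em : ℤ) : Prop :=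
  ∃ φ : ∀ b c : SignType, N.mod b c ≃ₗ[TorRing k b c] N'.mod b c,
    (∀ {b b' : SignType} (hb : Sub b b') (c) (v),
      N'.res hb (Sub.refl c) (φ b c v) = φ b' c (N.res hb (Sub.refl c) v)) ∧
    (∀ {b b' : SignType} (hb : Sub b b') (v), N'.res hb (Sub.zero 1) (φ b 1 v) =
      chi k b' 0 (0, ep) • (φ b' 0 (N.res hb (Sub.zero 1) v))) ∧
    (∀ {b b' : SignType} (hb : Sub b b') (v), N'.res hb (Sub.zero (-1)) (φ b (-1) v) =
        chi k b' 0 (0, em) • (φ b' 0 (N.res hb (Sub.zero (-1)) v)))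

end MFam

/-- Exact sequences and twists of bundles give exact sequences and twists of families. -/
def MToFam : Prop := ∀ (k : Type) [Field k],
  (∀ N' N N'' : MFam k, MFam.Exact N' N N'' → Fam.Exact N'.toFam N.toFam N''.toFam) ∧
  (∀ (N N' : MFam k) (ep em : ℤ), MFam.Twist N N' ep em → Fam.Twist N.toFam N'.toFam ep em)

/-! ### Vector bundles on the infinite cyclic covering -/

/-- A vector bundle on the infinite cyclic covering of `X_S`. -/
structure Bundle0 (k : Type) [Field k] (S : Subdiv) where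
  mod : Chart S → Type
  [grp : ∀ x, AddCommGroup (mod x)]
  [module : ∀ x : Chart S, Module (x.1.ring k) (mod x)]
  [finite : ∀ x : Chart S, Module.Finite (x.1.ring k) (mod x)]
  [projective : ∀ x : Chart S, Module.Projective (x.1.ring k) (mod x)]
  res : ∀ {x y : Chart S}, IsHom 0 x.1 y.1 → mod x →+ mod y
  res_bc : ∀ {x y : Chart S} (h : IsHom 0 x.1 y.1), IsBC (ringMap k h) (res h)
  res_refl : ∀ (x : Chart S) (e : mod x), res (IsHom.refl x.1) e = e
  res_comp : ∀ {x y z : Chart S} (h : IsHom 0 x.1 y.1) (h' : IsHom 0 y.1 z.1)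
    (e : mod x), res h' (res h e) = res (h.comp h') e

attribute [instance] Bundle0.grp Bundle0.module Bundle0.finite Bundle0.projective

/-- The pull-back of a bundle to the infinite cyclic covering. -/
def Bundle.cov {k : Type} [Field k] {S : Subdiv} (E : Bundle k S) : Bundle0 k S where
  mod := E.mod
  grp := E.grp
  module := E.module
  finite := E.finite
  projective := E.projective
  res h := E.res h
  res_bc h := E.res_bc h
  res_refl := E.res_refl
  res_comp h h' e := E.res_comp h h' e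

section
variable {k : Type} [Field k] {S : Subdiv}

/-- Short exact sequences on the covering. -/
def IsExact0 (E' E E'' : Bundle0 k S) : Prop :=
  ∃ (f : ∀ x : Chart S, E'.mod x →ₗ[x.1.ring k] E.mod x)
    (g : ∀ x : Chart S, E.mod x →ₗ[x.1.ring k] E''.mod x),
    (∀ {x y : Chart S} (h : IsHom 0 x.1 y.1) (e : E'.mod x),
      E.res h (f x e) = f y (E'.res h e)) ∧
    (∀ {x y : Chart S} (h : IsHom 0 x.1 y.1) (e : E.mod x),
      E''.res h (g x e) = g y (E.res h e)) ∧
    ∀ x, Function.Injective (f x) ∧ Function.Exact (f x) (g x) ∧ Function.Surjective (g x)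

/-- `F` is the twist of `E` by the line bundle on the covering given by the local
lifts `m l r` (not necessarily periodic). -/
def IsTwist0 (m : ℚ → ℚ → ℤ × ℤ) (E F : Bundle0 k S) : Prop :=
  ∃ φ : ∀ x : Chart S, E.mod x ≃ₗ[x.1.ring k] F.mod x,
    ∀ {x y : Chart S} (h : IsHom 0 x.1 y.1) (e : E.mod x),
      F.res h (φ x e) = y.1.mono k ((0, 0, m x.1.l x.1.r) - (0, 0, m y.1.l y.1.r)) •
        φ y (E.res h e)

end

/-! ### Restriction to `P^1 x P^1` -/

/-- `l < v < r` are adapted to the subdivision `S`. -/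
structure Adm (S : Subdiv) (v l r : ℚ) : Prop where
  lv : l < v
  vr : v < r
  left : ∀ q ∈ S.pts, ¬ (l < q ∧ q < v)
  right : ∀ q ∈ S.pts, ¬ (v < q ∧ q < r)

/-- The chart of the infinite covering containing the chart `(b, c)` of
`P^1 x {s_2 = 1} x P_v`. -/
def fibRaw (v l r : ℚ) (b c : SignType) : Raw where
  a := b
  b := 0
  l := if c = -1 then l else v
  r := if c = 1 then r else v

lemma fib_mem {S : Subdiv} {v l r : ℚ} (h : Adm S v l r) (b c : SignType) :
    (fibRaw v l r b c).l ≤ (fibRaw v l r b c).r ∧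
      ∀ q ∈ S.pts, ¬ ((fibRaw v l r b c).l < q ∧ q < (fibRaw v l r b c).r) := by
  have h1 := h.lv
  have h2 := h.vr
  have h3 := h.left
  have h4 := h.right
  rcases c with _ | _ | _
  · exact ⟨le_refl v, fun q _ hq => absurd hq.2 (not_lt.2 hq.1.le)⟩
  · exact ⟨h1.le, h3⟩
  · exact ⟨h2.le, h4⟩

/-- The same as a chart. -/
def fibChart {S : Subdiv} {v l r : ℚ} (h : Adm S v l r) (b c : SignType) : Chart S :=
  ⟨fibRaw v l r b c, fib_mem h b c⟩

/-- The restriction of a monomial to `P^1 x {s_2 = 1} x P_v`. -/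
noncomputable def faceVal (k : Type) [Field k] (v : ℚ) (b c : SignType) (m : Lat) :
    TorRing k b c :=
  if (m.2.2.1 : ℚ) * v + m.2.2.2 = 0 then chi k b c (m.1, m.2.2.1 / v.den) else 0

end W633.LT
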