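import Pool.Agent.W633.LT.Stm

/-!
# Restriction of bundles to `P^1 x P^1`: the ring homomorphisms and the statements.
-/

namespace W633.LT

section face

variable {v l r : ℚ} {b c : SignType}

/-- value of the affine function at `v` -/
lemma fib_val_nonneg {m : Lat} (hm : m ∈ (fibRaw v l r b c).mon) :
    0 ≤ (m.2.2.1 : ℚ) * v + m.2.2.2 := by
  obtain ⟨-, -, h3, h4⟩ := hm
  rcases c with _ | _ | _
  · exact h3
  · exact h4
  · exact h3

lemma fib_face_mem (hl : l < v) (hr : v < r) {m : Lat} (hm : m ∈ (fibRaw v l r b c).mon)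
    (h0 : (m.2.2.1 : ℚ) * v + m.2.2.2 = 0) :
    (m.1, m.2.2.1 / (v.den : ℤ)) ∈ Tor b c ∧ (v.den : ℤ) ∣ m.2.2.1 := by
  have hdvd : (v.den : ℤ) ∣ m.2.2.1 := by
    have h1 : (m.2.2.1 : ℚ) * v.num + m.2.2.2 * v.den = 0 := by
      have hd : (v.den : ℚ) ≠ 0 := by exact_mod_cast v.den_nz
      have hv : v * v.den = v.num := Rat.mul_den_eq_num v
      calc (m.2.2.1 : ℚ) * v.num + m.2.2.2 * v.den
          = ((m.2.2.1 : ℚ) * v + m.2.2.2) * v.den := by rw [← hv]; ring
        _ = 0 := by rw [h0, zero_mul]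
    have h2 : m.2.2.1 * v.num + m.2.2.2 * v.den = 0 := by exact_mod_cast h1
    have h3 : (v.den : ℤ) ∣ m.2.2.1 * v.num := ⟨-m.2.2.2, by linarith⟩
    have hco : IsCoprime (v.den : ℤ) v.num := by
      have := v.reduced
      rw [Int.isCoprime_iff_gcd_eq_one, Int.gcd_comm]
      simpa [Int.gcd] using this
    exact hco.dvd_of_dvd_mul_right h3
  have hdpos : (0 : ℤ) < v.den := by exact_mod_cast v.den_pos
  refine ⟨⟨hm.1, ?_⟩, hdvd⟩
  obtain ⟨w, hw⟩ := hdvd
  have hq : m.2.2.1 / (v.den : ℤ) = w := by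
    rw [hw]; exact Int.mul_ediv_cancel_left w hdpos.ne'
  change 0 ≤ (c : ℤ) * (m.2.2.1 / (v.den : ℤ))
  rw [hq]
  obtain ⟨-, -, h3, h4⟩ := hm
  rcases c with _ | _ | _
  · simp
  · change 0 ≤ (m.2.2.1 : ℚ) * l + m.2.2.2 at h3
    have h5 : (0 : ℚ) ≤ (m.2.2.1 : ℚ) * (l - v) := by linarith
    have h6 : (m.2.2.1 : ℚ) ≤ 0 := by nlinarith
    have h7 : m.2.2.1 ≤ 0 := by exact_mod_cast h6
    have h8 : w ≤ 0 := by nlinarith
    simpa using h8
  · change 0 ≤ (m.2.2.1 : ℚ) * r + m.2.2.2 at h4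
    have h5 : (0 : ℚ) ≤ (m.2.2.1 : ℚ) * (r - v) := by linarith
    have h6 : (0 : ℚ) ≤ (m.2.2.1 : ℚ) := by nlinarith
    have h7 : 0 ≤ m.2.2.1 := by exact_mod_cast h6
    have h8 : 0 ≤ w := by nlinarith
    simpa using h8

variable (k : Type) [Field k]

/-- The restriction of monomials, as a homomorphism of monoids. -/
noncomputable def faceHom (hl : l < v) (hr : v < r) (b c : SignType) :
    Multiplicative (fibRaw v l r b c).mon →* TorRing k b c where
  toFun m := faceVal k v b c (Multiplicative.toAdd m).1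
  map_one' := by
    simp [faceVal, chi_zero]
  map_mul' m n := by
    change faceVal k v b c ((Multiplicative.toAdd m).1 + (Multiplicative.toAdd n).1) = _
    generalize hm : Multiplicative.toAdd m = m'
    generalize hn : Multiplicative.toAdd n = n'
    have hm0 := fib_val_nonneg m'.2
    have hn0 := fib_val_nonneg n'.2
    have hsum : (((m'.1 + n'.1 : Lat).2.2.1 : ℤ) : ℚ) * v + (m'.1 + n'.1 : Lat).2.2.2 =
      ((m'.1.2.2.1 : ℚ) * v + m'.1.2.2.2) + ((n'.1.2.2.1 : ℚ) * v + n'.1.2.2.2) := by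
      simp only [Prod.snd_add, Prod.fst_add]; push_cast; ring
    by_cases h1 : (m'.1.2.2.1 : ℚ) * v + m'.1.2.2.2 = 0
    · by_cases h2 : (n'.1.2.2.1 : ℚ) * v + n'.1.2.2.2 = 0
      · have e1 := fib_face_mem hl hr m'.2 h1
        have e2 := fib_face_mem hl hr n'.2 h2
        rw [faceVal, if_pos (by rw [hsum, h1, h2, add_zero]), faceVal, if_pos h1, faceVal,
          if_pos h2, chi_mul e1.1 e2.1]
        congr 1
        refine Prod.ext rfl ?_
        exact Int.add_ediv_of_dvd_left e1.2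
      · rw [faceVal, if_neg (by rw [hsum, h1, zero_add]; exact h2), faceVal, faceVal,
          if_neg h2, mul_zero]
    · rw [faceVal, if_neg, faceVal, if_neg h1, zero_mul]
      rw [hsum]
      have : 0 < (m'.1.2.2.1 : ℚ) * v + m'.1.2.2.2 := lt_of_le_of_ne hm0 (Ne.symm h1)
      linarith

/-- The restriction of functions to the chart `(b, c)` of `P^1 x {s_2 = 1} x P_v`. -/
noncomputable def piHom (hl : l < v) (hr : v < r) (b c : SignType) :
    (fibRaw v l r b c).ring k →+* TorRing k b c :=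
  Ideal.Quotient.lift _ (AddMonoidAlgebra.lift k (TorRing k b c) (fibRaw v l r b c).mon
    (faceHom k hl hr b c)).toRingHom (by
      intro a ha
      have hle : Ideal.span {(AddMonoidAlgebra.single ⟨unif, unif_mem (fibRaw v l r b c)⟩ 1 :
          AddMonoidAlgebra k (fibRaw v l r b c).mon)} ≤ RingHom.ker
          (AddMonoidAlgebra.lift k (TorRing k b c) (fibRaw v l r b c).mon
            (faceHom k hl hr b c)).toRingHom := by
        rw [Ideal.span_le, Set.singleton_subset_iff]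
        simp only [AlgHom.toRingHom_eq_coe, SetLike.mem_coe, RingHom.mem_ker, RingHom.coe_coe]
        rw [AddMonoidAlgebra.lift_single]
        simp [faceHom, faceVal, unif]
      exact hle ha)

lemma piHom_mono (hl : l < v) (hr : v < r) {m : Lat} (hm : m ∈ (fibRaw v l r b c).mon) :
    piHom k hl hr b c ((fibRaw v l r b c).mono k m) = faceVal k v b c m := by
  rw [Raw.mono, dif_pos hm]
  simp [piHom, faceHom]

end face

lemma fib_isHom {v l r : ℚ} {b c b' c' : SignType} (hb : Sub b b')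
    (hc : Sub c c') : IsHom 0 (fibRaw v l r b c) (fibRaw v l r b' c') := by
  intro m hm
  rw [deck_zero]
  have hv := fib_val_nonneg hm
  obtain ⟨h1, h2, h3, h4⟩ := hm
  refine ⟨?_, h2, ?_, ?_⟩
  · rcases hb with rfl | rfl
    · exact h1
    · simp [fibRaw]
  · rcases hc with rfl | rfl
    · exact h3
    · exact hv
  · rcases hc with rfl | rfl
    · exact h4
    · exact hv

/-- `piHom` for the chart `fibChart`. -/
noncomputable def piC (k : Type) [Field k] {S : Subdiv} {v l r : ℚ} (h : Adm S v l r)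
    (b c : SignType) : (fibChart h b c).1.ring k →+* TorRing k b c :=
  piHom k h.lv h.vr b c

/-- `N` with the maps `φ` is the restriction of `E` to `P^1 x {s_2 = 1} x P_v`. -/
structure IsFib {k : Type} [Field k] {S : Subdiv} (E : Bundle0 k S) {v l r : ℚ}
    (h : Adm S v l r) (N : MFam k) (φ : ∀ b c, E.mod (fibChart h b c) →+ N.mod b c) : Prop where
  bc : ∀ b c, IsBC (piC k h b c) (φ b c)
  comm : ∀ {b c b' c' : SignType} (hb : Sub b b') (hc : Sub c c') (e : E.mod (fibChart h b c)),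
    φ b' c' (E.res (x := fibChart h b c) (y := fibChart h b' c') (fib_isHom hb hc) e) =
      N.res hb hc (φ b c e)

/-- `m l r` are the local lifts of the function `fn`. -/
def IsLift (S : Subdiv) (fn : ℚ → ℚ) (m : ℚ → ℚ → ℤ × ℤ) : Prop :=
  ∀ x : Chart S, ∀ q, x.1.l ≤ q → q ≤ x.1.r → fn q = (m x.1.l x.1.r).1 * q + (m x.1.l x.1.r).2

/-- Existence of restrictions. -/
def RExist : Prop := ∀ (k : Type) [Field k] (S : Subdiv) (E : Bundle0 k S) (v l r : ℚ)
  (h : Adm S v l r), ∃ (N : MFam k) (φ : ∀ b c, E.mod (fibChart h b c) →+ N.mod b c),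
    IsFib E h N φ

/-- The restriction is an exact functor. -/
def RExact : Prop := ∀ (k : Type) [Field k] (S : Subdiv) (E' E E'' : Bundle0 k S) (v l r : ℚ)
  (h : Adm S v l r) (N' N N'' : MFam k)
  (φ' : ∀ b c, E'.mod (fibChart h b c) →+ N'.mod b c)
  (φ : ∀ b c, E.mod (fibChart h b c) →+ N.mod b c)
  (φ'' : ∀ b c, E''.mod (fibChart h b c) →+ N''.mod b c),
  IsExact0 E' E E'' → IsFib E' h N' φ' → IsFib E h N φ → IsFib E'' h N'' φ'' →
  MFam.Exact N' N N''

/-- The restriction does not depend on `l` and `r`. -/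
def RIndep : Prop := ∀ (k : Type) [Field k] (S : Subdiv) (E : Bundle0 k S) (v l r l' r' : ℚ)
  (h : Adm S v l r) (h' : Adm S v l' r') (N N' : MFam k)
  (φ : ∀ b c, E.mod (fibChart h b c) →+ N.mod b c)
  (φ' : ∀ b c, E.mod (fibChart h' b c) →+ N'.mod b c),
  IsFib E h N φ → IsFib E h' N' φ' → MFam.Twist N N' 0 0

/-- The restriction of a twist. -/
def RTwist : Prop := ∀ (k : Type) [Field k] (S : Subdiv) (fn : ℚ → ℚ) (m : ℚ → ℚ → ℤ × ℤ)
  (E F : Bundle0 k S) (v l r : ℚ) (h : Adm S v l r) (N N' : MFam k)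
  (φ : ∀ b c, E.mod (fibChart h b c) →+ N.mod b c)
  (φ' : ∀ b c, F.mod (fibChart h b c) →+ N'.mod b c),
  IsLift S fn m → IsTwist0 m E F → IsFib E h N φ → IsFib F h N' φ' →
  MFam.Twist N N' (((m v r).1 - (m v v).1) / v.den) (((m l v).1 - (m v v).1) / v.den)

/-- The degree at the right end of an interval equals the degree at its left end. -/
def RChain : Prop := ∀ (k : Type) [Field k] (S : Subdiv) (E : Bundle0 k S) (l0 l r r0 : ℚ)
  (h : Adm S l l0 r) (h' : Adm S r l r0) (N N' : MFam k)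
  (φ : ∀ b c, E.mod (fibChart h b c) →+ N.mod b c)
  (φ' : ∀ b c, E.mod (fibChart h' b c) →+ N'.mod b c),
  IsFib E h N φ → IsFib E h' N' φ' → N.toFam.deg 1 = N'.toFam.deg (-1)

/-- The exponents defining a line bundle on the covering: degree `β₁` and `β₂` on the two
projective lines, and the affine functions `m l r`. -/
def lam {S : Subdiv} (β₁ β₂ : ℤ) (m : ℚ → ℚ → ℤ × ℤ) (x : Chart S) : Lat :=
  (if x.1.a = -1 then β₁ else 0, if x.1.b = -1 then β₂ else 0, m x.1.l x.1.r)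

/-- `L` is the line bundle on the covering with transition functions the quotients of the
monomials `μ x`. -/
def IsLine {k : Type} [Field k] {S : Subdiv} (L : Bundle0 k S) (μ : Chart S → Lat) : Prop :=
  ∃ ψ : ∀ x : Chart S, x.1.ring k ≃ₗ[x.1.ring k] L.mod x,
    ∀ {x y : Chart S} (h : IsHom 0 x.1 y.1) (f : x.1.ring k),
      L.res h (ψ x f) = ψ y (y.1.mono k (μ x - μ y) * ringMap k h f)

/-- Values for line bundles. -/
def WVal : Prop := ∀ (k : Type) [Field k] (S : Subdiv) (fn : ℚ → ℚ) (m : ℚ → ℚ → ℤ × ℤ)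
  (L : Bundle0 k S) (β₁ β₂ : ℤ) (v l r : ℚ) (h : Adm S v l r) (N : MFam k)
  (φ : ∀ b c, L.mod (fibChart h b c) →+ N.mod b c),
  IsLift S fn m → (β₁ = 0 ∨ β₁ = 1) → IsLine L (lam β₁ β₂ m) → IsFib L h N φ →
  N.toFam.deg 1 = β₁ ∧ N.toFam.e = β₁ * (((m l v).1 - (m v r).1) / v.den)

/-- The direct images of line bundles from the double covering of `X_S`. -/
def XExist : Prop := ∀ (k : Type) [Field k] (S : Subdiv) (fn : ℚ → ℚ) (m m' : ℚ → ℚ → ℤ × ℤ),
  (∀ q, fn (q + 4) = fn q) → IsLift S fn m → IsLift S (fun q => fn (q + 2)) m' →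
  ∃ (E : Bundle k S) (L L' : Bundle0 k S), IsLine L (lam 0 1 m) ∧ IsLine L' (lam 1 0 m') ∧
    IsExact0 L E.cov L'

/-- The tent functions. -/
def Tent : Prop := ∀ i : ℕ, ∃ (S : Subdiv) (fn : ℚ → ℚ), (∀ q, fn (q + 4) = fn q) ∧
  (∀ x : Chart S, ∃ m : ℤ × ℤ, ∀ q : ℚ, x.1.l ≤ q → q ≤ x.1.r → fn q = m.1 * q + m.2) ∧
  ∀ (j : ℕ) (z : ℕ) (v l r : ℚ), z ≤ 1 → v = 1 / (2 * (j : ℚ) + 2) + 2 * (z : ℚ) →
    Adm S v l r → ∀ m m' : ℤ × ℤ,
    (∀ q : ℚ, l ≤ q → q ≤ v → fn q = m.1 * q + m.2) →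
    (∀ q : ℚ, v ≤ q → q ≤ r → fn q = m'.1 * q + m'.2) →
    m.1 - m'.1 = if j = i ∧ z = 0 then 2 * (2 * (i : ℤ) + 2) else 0

/-- Combinatorics of subdivisions. -/
def Comb : Prop := (∀ (S : Subdiv) (v : ℚ), ∃ l r, Adm S v l r) ∧
  ∀ (S : Subdiv) (D : ℚ → ℤ),
    (∀ l r, l < r → (∀ q ∈ S.pts, ¬ (l < q ∧ q < r)) → D l = D r) → ∀ v, D v = D (v + 2)

end W633.LT
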